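import Mathlib

set_option autoImplicit false

namespace Pool.Agent.H12.Plinth

open Polynomial

section Action

variable (k : Type*) [Field k] (p : ℕ)

/-- The polynomial ring in three variables. -/
abbrev B3 := MvPolynomial (Fin 3) k

noncomputable def xx : B3 k := MvPolynomial.X 0
noncomputable def uu : B3 k := MvPolynomial.X 1
noncomputable def yy : B3 k := MvPolynomial.X 2
noncomputable def ss : B3 k := uu k ^ p - xx k * yy k
noncomputable def ff : B3 k := uu k + ss k p ^ (p + 1)
noncomputable def ww : B3 k := xx k ^ (3 * (p - 1))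
noncomputable def aa : B3 k := xx k ^ (3 * (p - 1) - 1)
noncomputable def NN : B3 k := ss k p ^ p - ww k p * ss k p
noncomputable def rr : B3 k := ff k p ^ p - NN k p ^ (p + 1)
noncomputable def hh : B3 k :=
  - yy k - aa k p * (ss k p ^ (p * p + 1) + ww k p ^ (p - 1) * ss k p ^ (2 * p)
    - ww k p ^ p * ss k p ^ (p + 1))
noncomputable def y1 : B3 k := xx k ^ (2 * p - 3) * ss k p - hh k p ^ p

/-- The auxiliary polynomial `W(T)`. -/
noncomputable def WT : (B3 k)[X] :=
  C (ss k p ^ p) * X + C (ss k p * ww k p) * X ^ p + C (xx k ^ (3 * p)) * X ^ (p + 1)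

/-- The `G_a`-action. -/
noncomputable def eps : B3 k →ₐ[k] (B3 k)[X] :=
  MvPolynomial.aeval ![C (xx k), C (uu k) - C (xx k ^ 3) * WT k p,
    C (yy k) - C (xx k ^ (3 * p - 1)) * WT k p ^ p - C (xx k ^ 2) * X]

lemma eps_x : eps k p (xx k) = C (xx k) := by
  rw [xx, eps, MvPolynomial.aeval_X]; rfl

lemma eps_u : eps k p (uu k) = C (uu k) - C (xx k ^ 3) * WT k p := by
  rw [uu, eps, MvPolynomial.aeval_X]; rfl

lemma eps_y : eps k p (yy k) =
    C (yy k) - C (xx k ^ (3 * p - 1)) * WT k p ^ p - C (xx k ^ 2) * X := by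
  rw [yy, eps, MvPolynomial.aeval_X]; rfl

variable [hp : Fact p.Prime] [CharP k p]

lemma eps_s : eps k p (ss k p) = C (ss k p) + C (xx k ^ 3) * X := by
  have h1 : (3 * p - 1) + 1 = 3 * p := by have := hp.out.two_le; omega
  rw [ss, map_sub, map_pow, map_mul, eps_x, eps_u, eps_y, sub_pow_char, mul_pow]
  simp only [map_pow, map_mul, map_sub]
  have h2 : C (xx k) * C (xx k) ^ (3 * p - 1) = (C (xx k) : (B3 k)[X]) ^ (3 * p) := by
    rw [← pow_succ', h1]
  linear_combination (WT k p ^ p) * h2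

omit [CharP k p] in
lemma xw : xx k ^ 3 * ww k p = xx k ^ (3 * p) := by
  have := hp.out.two_le
  rw [ww, ← pow_add]
  congr 1
  omega

lemma eps_f : eps k p (ff k p) = C (ff k p) := by
  have h0 : (C (ss k p) + C (xx k ^ 3) * X) ^ p =
      (C (ss k p) ^ p + (C (xx k ^ 3) * X) ^ p : (B3 k)[X]) := add_pow_char _ _ _
  rw [ff, map_add, map_pow, eps_s, eps_u, pow_succ (C (ss k p) + C (xx k ^ 3) * X), h0, mul_pow]
  have h1 : (C (xx k ^ 3) : (B3 k)[X]) ^ p = C (xx k ^ 3) * C (ww k p) := by
    rw [← C_pow, ← C_mul, xw, ← pow_mul]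
  have h2 : (C (xx k ^ (3 * p)) : (B3 k)[X]) = C (xx k ^ 3) * C (ww k p) := by
    rw [← C_mul, xw]
  rw [h1, WT, h2]
  simp only [map_add, map_pow, map_mul]
  ring

omit hp [CharP k p] in
/-- Homomorphisms to domains are determined by the images of `x, s, f`. -/
lemma hom_ext' {D : Type*} [CommRing D] [IsDomain D] [Algebra k D] (F G : B3 k →ₐ[k] D)
    (hx : F (xx k) = G (xx k)) (hs : F (ss k p) = G (ss k p)) (hf : F (ff k p) = G (ff k p))
    (hx0 : F (xx k) ≠ 0) : F = G := by
  have hu : F (uu k) = G (uu k) := by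
    have h1 : uu k = ff k p - ss k p ^ (p + 1) := by rw [ff]; ring
    rw [h1, map_sub, map_sub, map_pow, map_pow, hs, hf]
  have hy : F (yy k) = G (yy k) := by
    have h1 : xx k * yy k = uu k ^ p - ss k p := by rw [ss]; ring
    have h2 : F (xx k * yy k) = G (xx k * yy k) := by
      rw [h1, map_sub, map_sub, map_pow, map_pow, hs, hu]
    rw [map_mul, map_mul, ← hx] at h2
    exact mul_left_cancel₀ hx0 h2
  apply MvPolynomial.algHom_ext
  intro i
  fin_cases i
  · exact hx
  · exact hu
  · exact hy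

omit [CharP k p] in
lemma WT_coeff_zero : (WT k p).coeff 0 = 0 := by
  rw [coeff_zero_eq_eval_zero, WT]
  simp [hp.out.ne_zero]

omit [CharP k p] in
lemma eps_coeff_zero (b : B3 k) : (eps k p b).coeff 0 = b := by
  induction b using MvPolynomial.induction_on with
  | C c =>
    rw [eps, MvPolynomial.aeval_C, show algebraMap k (B3 k)[X] c = C (MvPolynomial.C c) from rfl,
      coeff_C_zero]
  | add a b ha hb => rw [map_add, coeff_add, ha, hb]
  | mul_X a i ha =>
    rw [map_mul, mul_coeff_zero, ha]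
    congr 1
    have hW := WT_coeff_zero k p
    fin_cases i
    · change (eps k p (xx k)).coeff 0 = xx k
      rw [eps_x, coeff_C_zero]
    · change (eps k p (uu k)).coeff 0 = uu k
      rw [eps_u, coeff_sub, mul_coeff_zero, hW, mul_zero, coeff_C_zero, sub_zero]
    · change (eps k p (yy k)).coeff 0 = yy k
      rw [eps_y, coeff_sub, coeff_sub, mul_coeff_zero, mul_coeff_zero, coeff_X_zero, mul_zero,
        coeff_C_zero, sub_zero, coeff_zero_eq_eval_zero (WT k p ^ p), eval_pow,
        ← coeff_zero_eq_eval_zero, hW, zero_pow hp.out.ne_zero]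
      simp

/-- Both sides of the coassociativity axiom as algebra homomorphisms. -/
noncomputable def coL : B3 k →ₐ[k] (B3 k)[X][X] := (Polynomial.mapAlgHom (eps k p)).comp (eps k p)

/-- The substitution `T ↦ T + U`. -/
noncomputable def coE : (B3 k)[X] →ₐ[k] (B3 k)[X][X] :=
  Polynomial.eval₂AlgHom
    ((Polynomial.CAlgHom : (B3 k)[X] →ₐ[k] (B3 k)[X][X]).comp
      (Polynomial.CAlgHom : B3 k →ₐ[k] (B3 k)[X])) (C X + X)
    (fun _ => Commute.all (S := (B3 k)[X][X]) _ _)

noncomputable def coR : B3 k →ₐ[k] (B3 k)[X][X] := (coE k).comp (eps k p)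

omit hp [CharP k p] in
lemma coE_apply (P : (B3 k)[X]) :
    coE k P = Polynomial.eval₂ ((C : (B3 k)[X] →+* _).comp C) (C X + X) P := rfl

lemma coE_C (b : B3 k) : coE k (C b) = C (C b) := by
  rw [coE_apply, eval₂_C]
  rfl

lemma coE_X : coE k X = C X + X := by
  rw [coE_apply, eval₂_X]

omit hp [CharP k p] in
lemma coL_apply (b : B3 k) :
    coL k p b = Polynomial.map (eps k p : B3 k →+* (B3 k)[X]) (eps k p b) := rfl

omit hp [CharP k p] in
lemma coR_apply (b : B3 k) : coR k p b = coE k (eps k p b) := rfl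

lemma coassoc : coL k p = coR k p := by
  refine hom_ext' k p (D := (B3 k)[X][X]) (coL k p) (coR k p) ?_ ?_ ?_ ?_
  · rw [coL_apply, coR_apply, eps_x, Polynomial.map_C, coE_C]
    change C (eps k p (xx k)) = _
    rw [eps_x]
  · rw [coL_apply, coR_apply, eps_s, Polynomial.map_add, Polynomial.map_mul, Polynomial.map_C,
      Polynomial.map_C, Polynomial.map_X, map_add, map_mul, coE_C, coE_C, coE_X]
    change C (eps k p (ss k p)) + C (eps k p (xx k ^ 3)) * X = C (C (ss k p)) +
      C (C (xx k ^ 3)) * (C X + X)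
    have h1 : eps k p (xx k ^ 3) = C (xx k ^ 3) := by rw [map_pow (eps k p), eps_x, ← C_pow]
    rw [eps_s, h1]
    simp only [map_add, map_mul, map_pow]
    ring
  · rw [coL_apply, coR_apply, eps_f, Polynomial.map_C, coE_C]
    change C (eps k p (ff k p)) = _
    rw [eps_f]
  · rw [coL_apply, eps_x, Polynomial.map_C]
    change C (eps k p (xx k)) ≠ 0
    rw [eps_x, Ne, C_eq_zero, C_eq_zero, xx]
    exact MvPolynomial.X_ne_zero _

/-- The endomorphism `b ↦ ε(b)|_{T=c}`. -/
noncomputable def phi (c : B3 k) : B3 k →ₐ[k] B3 k :=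
  ((Polynomial.aeval (R := B3 k) c).restrictScalars k).comp (eps k p)

omit hp [CharP k p] in
lemma phi_apply (c b : B3 k) : phi k p c b = (eps k p b).eval c := by
  rw [phi]
  change Polynomial.aeval c (eps k p b) = _
  rw [Polynomial.aeval_def, Polynomial.eval₂_eq_eval_map]
  simp

omit hp [CharP k p] in
lemma phi_x (c : B3 k) : phi k p c (xx k) = xx k := by rw [phi_apply, eps_x, eval_C]

lemma phi_s (c : B3 k) : phi k p c (ss k p) = ss k p + xx k ^ 3 * c := by
  rw [phi_apply, eps_s, eval_add, eval_mul, eval_C, eval_C, eval_X]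

lemma phi_f (c : B3 k) : phi k p c (ff k p) = ff k p := by rw [phi_apply, eps_f, eval_C]

omit hp [CharP k p] in
lemma phi_w (c : B3 k) : phi k p c (ww k p) = ww k p := by rw [ww, map_pow, phi_x]

omit hp [CharP k p] in
lemma xx_ne : xx k ≠ 0 := MvPolynomial.X_ne_zero _

lemma phi_comp (c d : B3 k) (hd : ∀ e, phi k p e d = d) :
    (phi k p c).comp (phi k p d) = phi k p (c + d) := by
  apply hom_ext' k p
  · rw [AlgHom.comp_apply, phi_x, phi_x, phi_x]
  · rw [AlgHom.comp_apply, phi_s, map_add, map_mul, map_pow, phi_x, phi_s, phi_s, hd]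
    ring
  · rw [AlgHom.comp_apply, phi_f, phi_f, phi_f]
  · rw [AlgHom.comp_apply, phi_x, phi_x]
    exact xx_ne k

lemma phi_zero : phi k p 0 = AlgHom.id k (B3 k) := by
  apply hom_ext' k p
  · rw [phi_x]; rfl
  · rw [phi_s, mul_zero, add_zero]; rfl
  · rw [phi_f]; rfl
  · rw [phi_x]
    exact xx_ne k

/-- The exponential automorphism `φ = ε_1`. -/
noncomputable def Phi : B3 k ≃ₐ[k] B3 k :=
  AlgEquiv.ofAlgHom (phi k p 1) (phi k p (-1))
    (by rw [phi_comp k p 1 (-1) (fun e => by rw [map_neg, map_one]), add_neg_cancel, phi_zero])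
    (by rw [phi_comp k p (-1) 1 (fun e => by rw [map_one]), neg_add_cancel, phi_zero])

lemma Phi_apply (b : B3 k) : Phi k p b = phi k p 1 b := rfl

lemma Phi_x : Phi k p (xx k) = xx k := phi_x k p 1

lemma Phi_s : Phi k p (ss k p) = ss k p + xx k ^ 3 := by
  rw [Phi_apply, phi_s, mul_one]

lemma Phi_f : Phi k p (ff k p) = ff k p := phi_f k p 1

lemma Phi_w : Phi k p (ww k p) = ww k p := phi_w k p 1

lemma Phi_N : Phi k p (NN k p) = NN k p := by
  have h0 : (ss k p + xx k ^ 3) ^ p = ss k p ^ p + (xx k ^ 3) ^ p := add_pow_char _ _ _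
  have h1 : (xx k ^ 3) ^ p = xx k ^ 3 * ww k p := by rw [xw, ← pow_mul]
  rw [NN, map_sub, map_pow, map_mul, Phi_s, Phi_w, h0, h1]
  ring

lemma Phi_r : Phi k p (rr k p) = rr k p := by
  rw [rr, map_sub, map_pow, map_pow, Phi_f, Phi_N]

omit [CharP k p] in
lemma xa : xx k * aa k p = ww k p := by
  have := hp.out.two_le
  rw [aa, ww, ← pow_succ']
  congr 1
  omega

lemma xh : xx k * hh k p = ss k p - rr k p := by
  have hN : NN k p ^ p = ss k p ^ (p * p) - ww k p ^ p * ss k p ^ p := by
    rw [NN, sub_pow_char, mul_pow, ← pow_mul]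
  have hf : ff k p ^ p = ss k p + xx k * yy k + ss k p ^ ((p + 1) * p) := by
    rw [ff, add_pow_char, ← pow_mul]
    congr 1
    rw [ss]
    ring
  have hw : ww k p ^ (p - 1) * ww k p = ww k p ^ p := by
    rw [← pow_succ]
    congr 1
    have := hp.out.two_le
    omega
  rw [rr, pow_succ, hN, hf, hh, NN]
  have ha := xa k p
  linear_combination (- (ss k p ^ (p * p + 1) + ww k p ^ (p - 1) * ss k p ^ (2 * p)
    - ww k p ^ p * ss k p ^ (p + 1))) * ha - ss k p ^ (2 * p) * hw

lemma Phi_h : Phi k p (hh k p) = hh k p + xx k ^ 2 := by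
  apply mul_left_cancel₀ (xx_ne k)
  have h1 := congrArg (Phi k p) (xh k p)
  rw [map_mul, map_sub, Phi_x, Phi_s, Phi_r] at h1
  rw [h1]
  have := xh k p
  linear_combination -this

lemma Phi_y1 : Phi k p (y1 k p) = y1 k p := by
  have h0 : (hh k p + xx k ^ 2) ^ p = hh k p ^ p + (xx k ^ 2) ^ p := add_pow_char _ _ _
  have h1 : xx k ^ (2 * p - 3) * xx k ^ 3 = (xx k ^ 2) ^ p := by
    rw [← pow_add, ← pow_mul]
    congr 1
    have := hp.out.two_le
    omega
  rw [y1, map_sub, map_mul, map_pow, map_pow, Phi_x, Phi_s, Phi_h, h0]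
  linear_combination h1

lemma xp_y1 : xx k ^ p * y1 k p = (ff k p ^ p - NN k p ^ (p + 1)) ^ p - NN k p := by
  have h1 : xx k ^ p * xx k ^ (2 * p - 3) = ww k p := by
    rw [← pow_add, ww]
    congr 1
    have := hp.out.two_le
    omega
  have h2 : xx k ^ p * hh k p ^ p = ss k p ^ p - rr k p ^ p := by
    rw [← mul_pow, xh, sub_pow_char]
  rw [← rr, y1, NN]
  linear_combination ss k p * h1 - h2

/-- `φ(b) - b` is divisible by `x^2`. -/
lemma x2_dvd (b : B3 k) : xx k ^ 2 ∣ Phi k p b - b := by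
  induction b using MvPolynomial.induction_on with
  | C c =>
    rw [show (MvPolynomial.C c : B3 k) = algebraMap k _ c from rfl, AlgEquiv.commutes, sub_self]
    exact dvd_zero _
  | add a b ha hb =>
    rw [map_add, add_sub_add_comm]
    exact dvd_add ha hb
  | mul_X a i ha =>
    have hX : xx k ^ 2 ∣ Phi k p (MvPolynomial.X i) - MvPolynomial.X i := by
      fin_cases i
      · change _ ∣ Phi k p (xx k) - xx k
        rw [Phi_x, sub_self]
        exact dvd_zero _
      · change _ ∣ Phi k p (uu k) - uu k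
        rw [Phi_apply, phi_apply, eps_u, eval_sub, eval_C, eval_mul, eval_C, sub_sub_cancel_left,
          dvd_neg]
        exact Dvd.dvd.mul_right (pow_dvd_pow _ (by norm_num)) _
      · change _ ∣ Phi k p (yy k) - yy k
        rw [Phi_apply, phi_apply, eps_y, eval_sub, eval_sub, eval_C, eval_mul, eval_C, eval_mul,
          eval_C, eval_X, mul_one]
        have h1 : xx k ^ 2 ∣ xx k ^ (3 * p - 1) := pow_dvd_pow _ (by
          have := hp.out.two_le
          omega)
        have h2 := (h1.mul_right ((WT k p ^ p).eval 1)).add (dvd_refl (xx k ^ 2))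
        rw [← dvd_neg] at h2
        convert h2 using 1
        ring
    rw [map_mul]
    have : Phi k p a * Phi k p (MvPolynomial.X i) - a * MvPolynomial.X i =
      Phi k p a * (Phi k p (MvPolynomial.X i) - MvPolynomial.X i) +
        (Phi k p a - a) * MvPolynomial.X i := by ring
    rw [this]
    exact dvd_add (hX.mul_left _) (ha.mul_right _)

end Action

end Pool.Agent.H12.Plinth
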