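import Mathlib

set_option autoImplicit false

namespace Pool.Agent.H12.Plinth

open AddMonoidAlgebra

/-- `Rel δ F f`: the finite sum `F` of terms `c ϖ^q` has only exponents `q ≥ δ` and
its coefficient at the exponent `δ` is `f`. -/
def Rel {Q : Type*} [Semiring Q] (δ : ℚ) (F : AddMonoidAlgebra Q ℚ) (f : Q) : Prop :=
  (∀ q, q < δ → F.coeff q = 0) ∧ F.coeff δ = f

variable {Q : Type*} [CommRing Q]

lemma Rel.unique {δ : ℚ} {F : AddMonoidAlgebra Q ℚ} {f g : Q} (h : Rel δ F f) (h' : Rel δ F g) :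
    f = g := h.2.symm.trans h'.2

lemma Rel.zero (δ : ℚ) : Rel δ (0 : AddMonoidAlgebra Q ℚ) 0 :=
  ⟨fun _ _ => by simp, by simp⟩

lemma Rel.add {δ : ℚ} {F G : AddMonoidAlgebra Q ℚ} {f g : Q} (h : Rel δ F f) (h' : Rel δ G g) :
    Rel δ (F + G) (f + g) := by
  refine ⟨fun q hq => ?_, ?_⟩
  · rw [coeff_add, Finsupp.add_apply, h.1 q hq, h'.1 q hq, add_zero]
  · rw [coeff_add, Finsupp.add_apply, h.2, h'.2]

lemma Rel.neg {δ : ℚ} {F : AddMonoidAlgebra Q ℚ} {f : Q} (h : Rel δ F f) :
    Rel δ (-F) (-f) := by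
  refine ⟨fun q hq => ?_, ?_⟩
  · rw [coeff_neg, Finsupp.neg_apply, h.1 q hq, neg_zero]
  · rw [coeff_neg, Finsupp.neg_apply, h.2]

lemma Rel.sub {δ : ℚ} {F G : AddMonoidAlgebra Q ℚ} {f g : Q} (h : Rel δ F f) (h' : Rel δ G g) :
    Rel δ (F - G) (f - g) := by
  rw [sub_eq_add_neg, sub_eq_add_neg]
  exact h.add h'.neg

lemma Rel.sum {ι : Type*} (s : Finset ι) {δ : ℚ} {F : ι → AddMonoidAlgebra Q ℚ} {f : ι → Q}
    (h : ∀ i ∈ s, Rel δ (F i) (f i)) : Rel δ (∑ i ∈ s, F i) (∑ i ∈ s, f i) := by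
  classical
  induction s using Finset.induction_on with
  | empty => simpa using Rel.zero δ
  | insert a s ha ih =>
    rw [Finset.sum_insert ha, Finset.sum_insert ha]
    exact (h a (Finset.mem_insert_self a s)).add
      (ih fun i hi => h i (Finset.mem_insert_of_mem hi))

lemma Rel.of_lt {δ δ' : ℚ} {F : AddMonoidAlgebra Q ℚ} {f : Q} (h : Rel δ F f) (hlt : δ' < δ) :
    Rel δ' F 0 :=
  ⟨fun q hq => h.1 q (hq.trans hlt), h.1 _ hlt⟩

lemma Rel.mul {δ ε : ℚ} {F G : AddMonoidAlgebra Q ℚ} {f g : Q} (h : Rel δ F f) (h' : Rel ε G g) :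
    Rel (δ + ε) (F * G) (f * g) := by
  classical
  refine ⟨fun q hq => ?_, ?_⟩
  · rw [coeff_mul]
    refine Finset.sum_eq_zero fun a ha => Finset.sum_eq_zero fun b hb => ?_
    beta_reduce
    rw [if_neg]
    intro hab
    rcases lt_or_ge a δ with h1 | h1
    · exact (Finsupp.mem_support_iff.mp ha) (h.1 a h1)
    rcases lt_or_ge b ε with h2 | h2
    · exact (Finsupp.mem_support_iff.mp hb) (h'.1 b h2)
    linarith
  · rw [coeff_mul]
    have key : ∀ a ∈ F.coeff.support, ∀ b ∈ G.coeff.support,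
        (if a + b = δ + ε then F.coeff a * G.coeff b else 0)
          = if a = δ ∧ b = ε then f * g else 0 := by
      intro a ha b hb
      rcases lt_or_ge a δ with h1 | h1
      · exact absurd (h.1 a h1) (Finsupp.mem_support_iff.mp ha)
      rcases lt_or_ge b ε with h2 | h2
      · exact absurd (h'.1 b h2) (Finsupp.mem_support_iff.mp hb)
      by_cases hab : a + b = δ + ε
      · have ha' : a = δ := by linarith
        have hb' : b = ε := by linarith
        rw [if_pos hab, if_pos ⟨ha', hb'⟩, ha', hb', h.2, h'.2]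
      · rw [if_neg hab, if_neg]
        rintro ⟨rfl, rfl⟩
        exact hab rfl
    have : (F.coeff.sum fun a r => G.coeff.sum fun b s => if a + b = δ + ε then r * s else 0)
        = ∑ a ∈ F.coeff.support, ∑ b ∈ G.coeff.support, if a = δ ∧ b = ε then f * g else 0 := by
      refine Finset.sum_congr rfl fun a ha => Finset.sum_congr rfl fun b hb => key a ha b hb
    rw [this]
    by_cases hδ : δ ∈ F.coeff.support
    · by_cases hε : ε ∈ G.coeff.support
      · rw [Finset.sum_eq_single_of_mem δ hδ, Finset.sum_eq_single_of_mem ε hε]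
        · simp
        · intro b _ hb
          simp [hb]
        · intro a _ ha
          simp [ha]
      · have hg : g = 0 := by rw [← h'.2]; exact Finsupp.notMem_support_iff.mp hε
        simp [hg]
    · have hf : f = 0 := by rw [← h.2]; exact Finsupp.notMem_support_iff.mp hδ
      simp [hf]

lemma Rel.single (δ : ℚ) (f : Q) : Rel δ (single δ f) f := by
  refine ⟨fun q hq => ?_, ?_⟩
  · rw [coeff_single, Finsupp.single_eq_of_ne hq.ne]
  · rw [coeff_single, Finsupp.single_eq_same]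

lemma Rel.one : Rel 0 (1 : AddMonoidAlgebra Q ℚ) 1 := by
  rw [one_def]
  exact Rel.single 0 1

lemma Rel.pow {δ : ℚ} {F : AddMonoidAlgebra Q ℚ} {f : Q} (h : Rel δ F f) (n : ℕ) :
    Rel (n * δ) (F ^ n) (f ^ n) := by
  induction n with
  | zero => simpa using Rel.one
  | succ n ih =>
    rw [pow_succ, pow_succ]
    have := ih.mul h
    convert this using 1
    push_cast
    ring

lemma Rel.pow_zero' {F : AddMonoidAlgebra Q ℚ} {f : Q} (h : Rel 0 F f) (n : ℕ) :
    Rel 0 (F ^ n) (f ^ n) := by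
  have := h.pow n
  rwa [mul_zero] at this

lemma Rel.mul_zero' {F G : AddMonoidAlgebra Q ℚ} {f g : Q} (h : Rel 0 F f) (h' : Rel 0 G g) :
    Rel 0 (F * G) (f * g) := by
  have := h.mul h'
  rwa [add_zero] at this

end Pool.Agent.H12.Plinth
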