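import Pool.Agent.H12.Plinth.Key
import Pool.Agent.H12.Plinth.Rel

set_option autoImplicit false

namespace Pool.Agent.H12.Plinth

open AddMonoidAlgebra

/-- The polynomial `(z^p - t^(p+1))^p - t`. -/
def Gf {S : Type*} [CommRing S] (p : ℕ) (z t : S) : S := (z ^ p - t ^ (p + 1)) ^ p - t

lemma map_Gf {S T : Type*} [CommRing S] [CommRing T] (f : S →+* T) (p : ℕ) (z t : S) :
    f (Gf p z t) = Gf p (f z) (f t) := by
  simp [Gf]

/-- Structure of elements of the ring: integral exponents and divisibility by powers of `G`. -/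
def Str {A : Type*} [CommRing A] (p : ℕ) (G : A) (F : AddMonoidAlgebra A ℚ) : Prop :=
  ∀ q, (F.coeff q = 0 ∨ ∃ m : ℤ, (m : ℚ) = q) ∧ G ^ ⌈-q / p⌉₊ ∣ F.coeff q

section Str

variable {A : Type*} [CommRing A] {p : ℕ} {G : A}

lemma Str.add {F F' : AddMonoidAlgebra A ℚ} (h : Str p G F) (h' : Str p G F') :
    Str p G (F + F') := by
  intro q
  rw [coeff_add, Finsupp.add_apply]
  refine ⟨?_, dvd_add (h q).2 (h' q).2⟩
  rcases (h q).1 with h1 | h1
  · rcases (h' q).1 with h2 | h2
    · left; rw [h1, h2, add_zero]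
    · right; exact h2
  · right; exact h1

lemma Str.mul {F F' : AddMonoidAlgebra A ℚ} (h : Str p G F) (h' : Str p G F') :
    Str p G (F * F') := by
  classical
  intro q
  rw [coeff_mul]
  refine ⟨?_, ?_⟩
  · by_cases hq : ∃ m : ℤ, (m : ℚ) = q
    · right; exact hq
    · left
      refine Finset.sum_eq_zero fun a ha => Finset.sum_eq_zero fun b hb => ?_
      beta_reduce
      rw [if_neg]
      intro hab
      rcases (h a).1 with h1 | ⟨m, hm⟩
      · exact (Finsupp.mem_support_iff.mp ha) h1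
      rcases (h' b).1 with h2 | ⟨n, hn⟩
      · exact (Finsupp.mem_support_iff.mp hb) h2
      exact hq ⟨m + n, by push_cast; rw [hm, hn, hab]⟩
  · refine Finset.dvd_sum fun a ha => Finset.dvd_sum fun b hb => ?_
    beta_reduce
    split_ifs with hab
    · have h1 := mul_dvd_mul (h a).2 (h' b).2
      refine dvd_trans ?_ h1
      rw [← pow_add]
      refine pow_dvd_pow _ ?_
      rw [← hab]
      refine le_trans (le_of_eq ?_) (Nat.ceil_add_le _ _)
      congr 1
      ring
    · exact dvd_zero _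

lemma Str.single_of_int {m : ℤ} {a : A} (h : G ^ ⌈-(m : ℚ) / p⌉₊ ∣ a) :
    Str p G (single (m : ℚ) a) := by
  intro q
  rw [coeff_single]
  by_cases hq : q = (m : ℚ)
  · subst hq
    rw [Finsupp.single_eq_same]
    exact ⟨Or.inr ⟨m, rfl⟩, h⟩
  · rw [Finsupp.single_eq_of_ne hq]
    exact ⟨Or.inl rfl, dvd_zero _⟩

lemma Str.single_of_nat (n : ℕ) (a : A) : Str p G (single (n : ℚ) a) := by
  have h : Str p G (single (((n : ℤ)) : ℚ) a) := by
    apply Str.single_of_int
    have : ⌈-(((n : ℤ)) : ℚ) / p⌉₊ = 0 := by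
      rw [Nat.ceil_eq_zero]
      apply div_nonpos_of_nonpos_of_nonneg
      · push_cast; simp
      · positivity
    rw [this, pow_zero]
    exact one_dvd _
  simpa using h

end Str

section Degen

variable {k : Type*} [Field k] {p : ℕ}
variable {R : Type*} [CommRing R] [Algebra k R]

/-- The exponents of the four generators. -/
def vv (p : ℕ) : Fin 4 → ℚ := ![1, 0, 0, -(p : ℚ)]

/-- The leading coefficients of the four generators. -/
noncomputable def lc (k : Type*) [Field k] (p : ℕ) : Fin 4 → MvPolynomial (Fin 2) k :=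
  ![1, MvPolynomial.X 0, MvPolynomial.X 1, Gf p (MvPolynomial.X 0) (MvPolynomial.X 1)]

/-- `R` is generated by four elements, with prescribed images in `k[z,t][x^q]`. -/
structure Gens (p : ℕ) (ι : R →ₐ[k] AddMonoidAlgebra (MvPolynomial (Fin 2) k) ℚ)
    (gen : Fin 4 → R) : Prop where
  img : ∀ j, ι (gen j) = single (vv p j) (lc k p j)
  adj : Algebra.adjoin k (Set.range gen) = ⊤

variable {ι : R →ₐ[k] AddMonoidAlgebra (MvPolynomial (Fin 2) k) ℚ} {gen : Fin 4 → R}

lemma Gens.str (hp : p ≠ 0) (H : Gens p ι gen) (r : R) :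
    Str p (Gf p (MvPolynomial.X 0) (MvPolynomial.X 1)) (ι r) := by
  have hr : r ∈ Algebra.adjoin k (Set.range gen) := by rw [H.adj]; trivial
  induction hr using Algebra.adjoin_induction with
  | mem x hx =>
    obtain ⟨j, rfl⟩ := hx
    rw [H.img]
    fin_cases j
    · simpa [vv, lc] using Str.single_of_nat 1 (1 : MvPolynomial (Fin 2) k)
    · simpa [vv, lc] using Str.single_of_nat 0 (MvPolynomial.X 0 : MvPolynomial (Fin 2) k)
    · simpa [vv, lc] using Str.single_of_nat 0 (MvPolynomial.X 1 : MvPolynomial (Fin 2) k)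
    · have h : Str p (Gf p (MvPolynomial.X 0) (MvPolynomial.X 1) : MvPolynomial (Fin 2) k)
          (single (((-p : ℤ)) : ℚ) (Gf p (MvPolynomial.X 0) (MvPolynomial.X 1))) := by
        apply Str.single_of_int
        have hp' : (p : ℚ) ≠ 0 := by exact_mod_cast hp
        have : ⌈-((-p : ℤ) : ℚ) / p⌉₊ = 1 := by
          push_cast
          rw [neg_neg, div_self hp', Nat.ceil_one]
        rw [this, pow_one]
      simpa [vv, lc] using h
  | algebraMap c =>
    rw [AlgHom.commutes]
    have := Str.single_of_nat (p := p)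
      (G := (Gf p (MvPolynomial.X 0) (MvPolynomial.X 1) : MvPolynomial (Fin 2) k)) 0
      (algebraMap k _ c)
    simpa using this
  | add x y _ _ hx hy => rw [map_add]; exact hx.add hy
  | mul x y _ _ hx hy => rw [map_mul]; exact hx.mul hy

lemma Gens.eval (H : Gens p ι gen) (a : MvPolynomial (Fin 2) k) :
    ι (MvPolynomial.aeval ![gen 1, gen 2] a) = single 0 a := by
  have h : ι.comp (MvPolynomial.aeval ![gen 1, gen 2]) =
      (AddMonoidAlgebra.singleZeroAlgHom (R := k) (A := MvPolynomial (Fin 2) k) (M := ℚ)) := by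
    apply MvPolynomial.algHom_ext
    intro i
    fin_cases i
    · simpa [vv, lc] using H.img 1
    · simpa [vv, lc] using H.img 2
  exact DFunLike.congr_fun h a

lemma Gens.decomp (hι : Function.Injective ι) (H : Gens p ι gen) (hp : p ≠ 0) (r : R)
    (hr : ∀ q < 0, (ι r).coeff q = 0) :
    r = ∑ q ∈ (ι r).coeff.support,
      gen 0 ^ ⌊q⌋₊ * MvPolynomial.aeval ![gen 1, gen 2] ((ι r).coeff q) := by
  apply hι
  rw [map_sum]
  conv_lhs => rw [← sum_coeff_single (ι r)]
  refine Finset.sum_congr rfl fun q hq => ?_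
  rw [map_mul, map_pow, H.eval, H.img]
  have h1 : vv p 0 = 1 := rfl
  have h2 : lc k p 0 = 1 := rfl
  rw [h1, h2, single_pow, one_pow, single_mul_single, one_mul, add_zero]
  congr 1
  have hq0 : 0 ≤ q := by
    by_contra h
    exact (Finsupp.mem_support_iff.mp hq) (hr q (not_le.mp h))
  rcases (H.str hp r q).1 with h3 | ⟨m, hm⟩
  · exact absurd h3 (Finsupp.mem_support_iff.mp hq)
  · subst hm
    have hm0 : 0 ≤ m := by exact_mod_cast hq0
    obtain ⟨n, rfl⟩ := Int.eq_ofNat_of_zero_le hm0
    have : ⌊((n : ℤ) : ℚ)⌋₊ = n := by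
      rw [show ((n : ℤ) : ℚ) = (n : ℚ) by push_cast; rfl]
      exact Nat.floor_natCast n
    rw [this]
    simp

end Degen

end Pool.Agent.H12.Plinth
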