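import Pool.Agent.H12.Plinth.Degen

set_option autoImplicit false

namespace Pool.Agent.H12.Plinth

open AddMonoidAlgebra

lemma single_Gf {A : Type*} [CommRing A] (p : ℕ) (a b : A) :
    (single 0 (Gf p a b) : AddMonoidAlgebra A ℚ) = Gf p (single 0 a) (single 0 b) :=
  map_Gf (singleZeroRingHom : A →+* AddMonoidAlgebra A ℚ) p a b

/-- The derivation `∂/∂t` of `k[z,t]`. -/
noncomputable def dt (k : Type*) [Field k] :
    Derivation ℤ (MvPolynomial (Fin 2) k) (MvPolynomial (Fin 2) k) :=
  (MvPolynomial.pderiv (R := k) (1 : Fin 2)).restrictScalars ℤ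

lemma dt_X (k : Type*) [Field k] : dt k (MvPolynomial.X 1) = 1 :=
  MvPolynomial.pderiv_X_self (R := k) (1 : Fin 2)

section Degen

variable {k : Type*} [Field k] {p : ℕ}
variable {R : Type*} [CommRing R] [Algebra k R]
variable (ι : R →ₐ[k] AddMonoidAlgebra (MvPolynomial (Fin 2) k) ℚ)

/-- `x ↦ ϖ`, `U ↦ ϖ^(-lam) U`. -/
noncomputable def subst (lam : ℚ) :
    Polynomial R →ₐ[k] AddMonoidAlgebra (Polynomial (MvPolynomial (Fin 2) k)) ℚ :=
  Polynomial.eval₂AlgHom ((AddMonoidAlgebra.mapAlgHom ℚ Polynomial.CAlgHom).comp ι)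
    (single (-lam) Polynomial.X) (fun _ => Commute.all (S := AddMonoidAlgebra (Polynomial (MvPolynomial (Fin 2) k)) ℚ) _ _)

lemma coeff_subst (lam : ℚ) (P : Polynomial R) (q : ℚ) (i : ℕ) :
    ((subst ι lam P).coeff q).coeff i = (ι (P.coeff i)).coeff (q + lam * i) := by
  induction P using Polynomial.induction_on' with
  | add P Q hP hQ =>
    rw [map_add, coeff_add, Finsupp.add_apply, Polynomial.coeff_add, hP, hQ, Polynomial.coeff_add,
      map_add ι, coeff_add, Finsupp.add_apply]
  | monomial n a =>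
    have h1 : subst ι lam (Polynomial.monomial n a) =
        (AddMonoidAlgebra.mapAlgHom ℚ
          (Polynomial.CAlgHom : MvPolynomial (Fin 2) k →ₐ[k] _) (ι a)) *
          single (-(lam * n)) (Polynomial.X ^ n) := by
      rw [subst, show ∀ (f : R →ₐ[k] AddMonoidAlgebra (Polynomial (MvPolynomial (Fin 2) k)) ℚ) b hb Q, Polynomial.eval₂AlgHom f b hb Q = Polynomial.eval₂ (f : R →+* _) b Q from fun _ _ _ _ => rfl, Polynomial.eval₂_monomial, single_pow]
      simp [mul_comm]
    rw [h1, coeff_mul_single_eq_coeff_mul (q + lam * n), coeff_mapAlgHom, Polynomial.coeff_monomial]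
    · rw [show (Polynomial.CAlgHom : MvPolynomial (Fin 2) k →ₐ[k] _) ((ι a).coeff (q + lam * n))
        = Polynomial.C ((ι a).coeff (q + lam * n)) from rfl, Polynomial.coeff_C_mul_X_pow]
      by_cases h : i = n
      · subst h; simp
      · rw [if_neg h, if_neg (Ne.symm h)]; simp
    · intro m' _
      constructor
      · intro h; linarith
      · intro h; linarith

variable {ι} {gen : Fin 4 → R}

theorem degen [hp : Fact p.Prime] [CharP k p] (hι : Function.Injective ι) (H : Gens p ι gen)
    (ψ : R →ₐ[k] Polynomial R) (h0 : ∀ r, (ψ r).coeff 0 = r)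
    (hψ : ∃ r, ψ r ≠ Polynomial.C r) (g : R) (hg : ψ g = Polynomial.C g) :
    ∀ q < 0, (ι g).coeff q = 0 := by
  classical
  have hp0 : p ≠ 0 := hp.out.ne_zero
  have hpQ : (0 : ℚ) < p := by exact_mod_cast hp.out.pos
  by_contra hcon
  push Not at hcon
  -- a generator which is not fixed
  have hgen : ∃ j, ψ (gen j) ≠ Polynomial.C (gen j) := by
    by_contra hall
    push Not at hall
    obtain ⟨r, hr⟩ := hψ
    apply hr
    have : ψ = (Polynomial.CAlgHom : R →ₐ[k] Polynomial R) := by
      apply AlgHom.ext_of_adjoin_eq_top H.adj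
      rintro _ ⟨j, rfl⟩
      exact hall j
    rw [this]
    rfl
  -- the finite set of all relevant exponents
  let Ω : Finset (Fin 4 × ℕ × ℚ) :=
    (Finset.univ : Finset (Fin 4)).biUnion fun j =>
      (((ψ (gen j)).support.erase 0).biUnion fun i =>
        ((ι ((ψ (gen j)).coeff i)).coeff.support.image fun q => (j, i, q)))
  have hΩ : ∀ j i q, (j, i, q) ∈ Ω ↔ i ≠ 0 ∧ (ι ((ψ (gen j)).coeff i)).coeff q ≠ 0 := by
    intro j i q
    simp only [Ω, Finset.mem_biUnion, Finset.mem_univ, true_and, Finset.mem_image,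
      Finset.mem_erase, Polynomial.mem_support_iff, Finsupp.mem_support_iff, Prod.mk.injEq]
    constructor
    · rintro ⟨j', i', ⟨hi', _⟩, q', hq', rfl, rfl, rfl⟩
      exact ⟨hi', hq'⟩
    · rintro ⟨h1, h2⟩
      refine ⟨j, i, ⟨h1, ?_⟩, q, h2, rfl, rfl, rfl⟩
      intro h3
      rw [h3, map_zero] at h2
      exact h2 rfl
  have hne : Ω.Nonempty := by
    obtain ⟨j, hj⟩ := hgen
    have h1 : ∃ i, i ≠ 0 ∧ (ψ (gen j)).coeff i ≠ 0 := by
      by_contra hall
      push Not at hall
      apply hj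
      ext i
      rw [Polynomial.coeff_C]
      by_cases hi : i = 0
      · rw [if_pos hi, hi, h0]
      · rw [if_neg hi, hall i hi]
    obtain ⟨i, hi, hi'⟩ := h1
    have h2 : ι ((ψ (gen j)).coeff i) ≠ 0 := fun h => hi' (hι (h.trans (map_zero ι).symm))
    have h3 : ∃ q, (ι ((ψ (gen j)).coeff i)).coeff q ≠ 0 := by
      by_contra hall
      push Not at hall
      apply h2
      ext q
      rw [hall q]
      rfl
    obtain ⟨q, hq⟩ := h3
    exact ⟨(j, i, q), (hΩ j i q).mpr ⟨hi, hq⟩⟩
  obtain ⟨⟨j0, i0, e0⟩, hmem, hmin⟩ :=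
    Ω.exists_min_image (fun w => (w.2.2 - vv p w.1) / (w.2.1 : ℚ)) hne
  obtain ⟨hi0, he0⟩ := (hΩ j0 i0 e0).mp hmem
  have hi0' : (0 : ℚ) < i0 := by exact_mod_cast Nat.pos_of_ne_zero hi0
  set lam : ℚ := (e0 - vv p j0) / (i0 : ℚ) with hlam
  have hlam' : lam * i0 = e0 - vv p j0 := by rw [hlam]; field_simp
  let Φ : R →ₐ[k] AddMonoidAlgebra (Polynomial (MvPolynomial (Fin 2) k)) ℚ :=
    (subst ι lam).comp ψ
  have hΦ : ∀ r q i, ((Φ r).coeff q).coeff i = (ι ((ψ r).coeff i)).coeff (q + lam * i) :=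
    fun r q i => coeff_subst ι lam (ψ r) q i
  set h : Fin 4 → Polynomial (MvPolynomial (Fin 2) k) :=
    fun j => (Φ (gen j)).coeff (vv p j) with hh
  have hRel : ∀ j, Rel (vv p j) (Φ (gen j)) (h j) := by
    intro j
    refine ⟨fun q hq => ?_, rfl⟩
    ext1 i
    rw [hΦ, Polynomial.coeff_zero]
    by_cases hi : i = 0
    · rw [hi, h0, H.img, coeff_single, Nat.cast_zero, mul_zero, add_zero,
        Finsupp.single_eq_of_ne hq.ne]
    · by_contra hne'
      have h1 := hmin (j, i, q + lam * i) ((hΩ _ _ _).mpr ⟨hi, hne'⟩)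
      dsimp only at h1
      have hi' : (0 : ℚ) < i := by exact_mod_cast Nat.pos_of_ne_zero hi
      rw [le_div_iff₀ hi'] at h1
      linarith
  have hcoeff0 : ∀ j, (h j).coeff 0 = lc k p j := by
    intro j
    rw [hh]
    dsimp only
    rw [hΦ, h0, H.img, coeff_single, Nat.cast_zero, mul_zero, add_zero, Finsupp.single_eq_same]
  have v0 : vv p 0 = 1 := rfl
  have v1 : vv p 1 = 0 := rfl
  have v2 : vv p 2 = 0 := rfl
  have v3 : vv p 3 = -(p : ℚ) := rfl
  -- the relation
  have hrel : gen 0 ^ p * gen 3 = Gf p (gen 1) (gen 2) := by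
    apply hι
    have h1 := map_Gf ι.toRingHom p (gen 1) (gen 2)
    simp only [AlgHom.toRingHom_eq_coe, RingHom.coe_coe] at h1
    rw [h1, map_mul, map_pow, H.img, H.img, H.img, H.img, v0, v1, v2, v3, single_pow,
      single_mul_single]
    have h2 := single_Gf p (MvPolynomial.X 0 : MvPolynomial (Fin 2) k) (MvPolynomial.X 1)
    rw [show lc k p 1 = MvPolynomial.X 0 from rfl, show lc k p 2 = MvPolynomial.X 1 from rfl,
      show lc k p 0 = 1 from rfl, show lc k p 3 = Gf p (MvPolynomial.X 0) (MvPolynomial.X 1)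
        from rfl, ← h2]
    simp
  have hrel' : h 0 ^ p * h 3 = Gf p (h 1) (h 2) := by
    have h1 : Rel 0 (Φ (gen 0 ^ p * gen 3)) (h 0 ^ p * h 3) := by
      rw [map_mul, map_pow]
      have := ((hRel 0).pow p).mul (hRel 3)
      rw [v0, v3, mul_one, add_neg_cancel] at this
      exact this
    have h2 : Rel 0 (Φ (gen 0 ^ p * gen 3)) (Gf p (h 1) (h 2)) := by
      rw [hrel]
      have h3 := map_Gf (T := AddMonoidAlgebra (Polynomial (MvPolynomial (Fin 2) k)) ℚ)
        Φ.toRingHom p (gen 1) (gen 2)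
      simp only [AlgHom.toRingHom_eq_coe, RingHom.coe_coe] at h3
      rw [h3]
      have r1 := hRel 1
      have r2 := hRel 2
      rw [v1] at r1
      rw [v2] at r2
      exact ((((r1.pow_zero' p).sub (r2.pow_zero' (p + 1))).pow_zero' p).sub r2)
    exact h1.unique h2
  -- evaluation of polynomials in z, t
  have hev : ∀ a : MvPolynomial (Fin 2) k,
      Rel 0 (Φ (MvPolynomial.aeval ![gen 1, gen 2] a)) (MvPolynomial.aeval ![h 1, h 2] a) := by
    intro a
    induction a using MvPolynomial.induction_on with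
    | C c =>
      have e1 : (MvPolynomial.aeval ![gen 1, gen 2] (MvPolynomial.C c : MvPolynomial (Fin 2) k))
        = algebraMap k R c := by simp
      have e2 : (MvPolynomial.aeval ![h 1, h 2] (MvPolynomial.C c : MvPolynomial (Fin 2) k))
        = algebraMap k _ c := by simp
      rw [e1, e2, AlgHom.commutes]
      exact Rel.single 0 _
    | add a b ha hb => rw [map_add, map_add, map_add]; exact ha.add hb
    | mul_X a i ha =>
      rw [map_mul, map_mul, map_mul]
      refine ha.mul_zero' ?_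
      rw [MvPolynomial.aeval_X, MvPolynomial.aeval_X]
      fin_cases i
      · have := hRel 1
        rwa [v1] at this
      · have := hRel 2
        rwa [v2] at this
  have hnonneg : ∀ r : R, (∀ q < 0, (ι r).coeff q = 0) →
      Rel 0 (Φ r) (MvPolynomial.aeval ![h 1, h 2] ((ι r).coeff 0)) := by
    intro r hr
    have hdec := H.decomp hι hp0 r hr
    have hsum : MvPolynomial.aeval ![h 1, h 2] ((ι r).coeff 0) =
        ∑ q ∈ (ι r).coeff.support,
          if q = 0 then MvPolynomial.aeval ![h 1, h 2] ((ι r).coeff 0) else 0 := by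
      rw [Finset.sum_ite_eq']
      split_ifs with h1
      · rfl
      · rw [Finsupp.notMem_support_iff.mp h1, map_zero]
    have h1 : Φ r = ∑ q ∈ (ι r).coeff.support,
      Φ (gen 0) ^ ⌊q⌋₊ * Φ (MvPolynomial.aeval ![gen 1, gen 2] ((ι r).coeff q)) := by
      conv_lhs => rw [hdec]
      rw [map_sum]
      exact Finset.sum_congr rfl fun q _ => by rw [map_mul, map_pow]
    rw [h1, hsum]
    refine Rel.sum _ fun q hq => ?_
    by_cases hq0 : q = 0
    · subst hq0
      rw [if_pos rfl, Nat.floor_zero, pow_zero, one_mul]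
      exact hev _
    · rw [if_neg hq0]
      have hqpos : 0 < q := by
        rcases lt_or_gt_of_ne hq0 with h2 | h2
        · exact absurd (hr q h2) (Finsupp.mem_support_iff.mp hq)
        · exact h2
      have hfl : 0 < ⌊q⌋₊ := by
        rcases (H.str hp0 r q).1 with h3 | ⟨m, hm⟩
        · exact absurd h3 (Finsupp.mem_support_iff.mp hq)
        · subst hm
          have hm0 : 0 < m := by exact_mod_cast hqpos
          rw [Nat.floor_pos]
          exact_mod_cast hm0
      have h3 := ((hRel 0).pow ⌊q⌋₊).mul (hev ((ι r).coeff q))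
      rw [v0] at h3
      exact h3.of_lt (by
        have : (0 : ℚ) < ⌊q⌋₊ := by exact_mod_cast hfl
        linarith)
  -- the lowest exponent of `g`
  have hgne : (ι g).coeff.support.Nonempty := by
    obtain ⟨q, _, hq⟩ := hcon
    exact ⟨q, Finsupp.mem_support_iff.mpr hq⟩
  obtain ⟨q0, hq0mem, hq0min⟩ := (ι g).coeff.support.exists_min_image id hgne
  have hq0neg : q0 < 0 := by
    obtain ⟨q, hqneg, hq⟩ := hcon
    have := hq0min q (Finsupp.mem_support_iff.mpr hq)
    simp only [id] at this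
    linarith
  set g0 := (ι g).coeff q0 with hg0
  have hg0ne : g0 ≠ 0 := Finsupp.mem_support_iff.mp hq0mem
  have hlow : ∀ q, q < q0 → (ι g).coeff q = 0 := by
    intro q hq
    by_contra hne'
    have := hq0min q (Finsupp.mem_support_iff.mpr hne')
    simp only [id] at this
    linarith
  obtain ⟨e, he⟩ : ∃ e : ℕ, (e : ℚ) = -q0 := by
    rcases (H.str hp0 g q0).1 with h1 | ⟨m, hm⟩
    · exact absurd h1 hg0ne
    · have hm0 : m < 0 := by
        have : (m : ℚ) < 0 := by rw [hm]; exact hq0neg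
        exact_mod_cast this
      refine ⟨(-m).toNat, ?_⟩
      have h2 : (((-m).toNat : ℤ) : ℚ) = ((-m : ℤ) : ℚ) := by
        rw [Int.toNat_of_nonneg (by omega)]
      rw [← hm]
      push_cast at h2
      exact_mod_cast h2
  -- first computation
  have hιr : ι (gen 0 ^ e * g) = ι g * single (e : ℚ) 1 := by
    rw [map_mul, map_pow, H.img, v0, show lc k p 0 = 1 from rfl, single_pow, one_pow, mul_comm]
    congr 2
    simp
  have hshift : ∀ q, (ι (gen 0 ^ e * g)).coeff q = (ι g).coeff (q + q0) := by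
    intro q
    rw [hιr, coeff_mul_single_eq_coeff_mul (q + q0), mul_one]
    intro m' _
    rw [he]
    constructor
    · intro h1; linarith
    · intro h1; linarith
  have hA : Rel 0 (Φ (gen 0 ^ e * g)) (MvPolynomial.aeval ![h 1, h 2] g0) := by
    have h1 := hnonneg (gen 0 ^ e * g) (fun q hq => by
      rw [hshift]
      exact hlow _ (by linarith))
    rw [hshift, zero_add] at h1
    exact h1
  -- second computation
  have hg' : Rel q0 (Φ g) (Polynomial.C g0) := by
    refine ⟨fun q hq => ?_, ?_⟩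
    · ext1 i
      rw [hΦ, hg, Polynomial.coeff_C, Polynomial.coeff_zero]
      by_cases hi : i = 0
      · rw [if_pos hi, hi, Nat.cast_zero, mul_zero, add_zero, hlow q hq]
      · rw [if_neg hi, map_zero]
        rfl
    · ext1 i
      rw [hΦ, hg, Polynomial.coeff_C, Polynomial.coeff_C]
      by_cases hi : i = 0
      · rw [if_pos hi, if_pos hi, hi, Nat.cast_zero, mul_zero, add_zero]
      · rw [if_neg hi, if_neg hi, map_zero]
        rfl
  have hB : Rel 0 (Φ (gen 0 ^ e * g)) (h 0 ^ e * Polynomial.C g0) := by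
    rw [map_mul, map_pow]
    have h1 := ((hRel 0).pow e).mul hg'
    rw [v0, mul_one, he, neg_add_cancel] at h1
    exact h1
  have hAB := hA.unique hB
  set c := ⌈-q0 / p⌉₊ with hc
  have hc1 : 1 ≤ c := by
    rw [hc, Nat.one_le_ceil_iff]
    apply div_pos _ hpQ
    linarith
  have hce : e ≤ p * c := by
    have h1 : -q0 / p ≤ c := Nat.le_ceil _
    rw [div_le_iff₀ hpQ, ← he] at h1
    have h2 : (e : ℚ) ≤ ((p * c : ℕ) : ℚ) := by push_cast; linarith
    exact_mod_cast h2
  obtain ⟨b, hb⟩ := (H.str hp0 g q0).2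
  have hh0ne : h 0 ≠ 0 := by
    intro h1
    have h2 := hcoeff0 0
    rw [h1, Polynomial.coeff_zero] at h2
    exact one_ne_zero h2.symm
  have hh2ne : h 2 ≠ 0 := by
    intro h1
    have h2 := hcoeff0 2
    rw [h1, Polynomial.coeff_zero] at h2
    exact (MvPolynomial.X_ne_zero (R := k) (1 : Fin 2)) h2.symm
  have hC : h 0 ^ (p * c - e) * h 3 ^ c * MvPolynomial.aeval ![h 1, h 2] b =
      Polynomial.C g0 := by
    apply mul_left_cancel₀ (pow_ne_zero e hh0ne)
    rw [← hAB, hg0, hb, map_mul, map_pow]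
    have h1 : MvPolynomial.aeval ![h 1, h 2]
        (Gf p (MvPolynomial.X 0) (MvPolynomial.X 1) : MvPolynomial (Fin 2) k) =
        h 0 ^ p * h 3 := by
      rw [hrel']
      have h2 := map_Gf (T := Polynomial (MvPolynomial (Fin 2) k))
        (MvPolynomial.aeval (R := k) ![h 1, h 2]).toRingHom p
        (MvPolynomial.X 0) (MvPolynomial.X 1)
      simp only [AlgHom.toRingHom_eq_coe, RingHom.coe_coe, MvPolynomial.aeval_X] at h2
      exact h2
    rw [h1, ← hc, mul_pow, ← pow_mul]
    have h3 : h 0 ^ (p * c) = h 0 ^ e * h 0 ^ (p * c - e) := by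
      rw [← pow_add]
      congr 1
      omega
    rw [h3]
    ring
  have hdeg3 : (h 3).natDegree = 0 := by
    have hne' : h 0 ^ (p * c - e) * h 3 ^ c * MvPolynomial.aeval ![h 1, h 2] b ≠ 0 := by
      rw [hC]
      exact (Polynomial.C_ne_zero).mpr hg0ne
    have n1 := left_ne_zero_of_mul hne'
    have n2 := right_ne_zero_of_mul hne'
    have n3 := right_ne_zero_of_mul n1
    have n4 := left_ne_zero_of_mul n1
    have h1 := congrArg Polynomial.natDegree hC
    rw [Polynomial.natDegree_C, Polynomial.natDegree_mul n1 n2, Polynomial.natDegree_mul n4 n3,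
      Polynomial.natDegree_pow] at h1
    have h2 : c * (h 3).natDegree = 0 := by
      rw [Polynomial.natDegree_pow] at h1
      omega
    rcases Nat.mul_eq_zero.mp h2 with h4 | h4
    · omega
    · exact h4
  have hh3 : h 3 = Polynomial.C (Gf p (MvPolynomial.X 0) (MvPolynomial.X 1)) := by
    rw [Polynomial.eq_C_of_natDegree_eq_zero hdeg3, hcoeff0]
    rfl
  -- apply the key lemma
  have hkey := key p (dt k) (MvPolynomial.X 0) (MvPolynomial.X 1) (dt_X k) (h 0) (h 1) (h 2) (by
      have h1 := hrel'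
      rw [hh3] at h1
      exact h1) hh0ne hh2ne
  have hall : ∀ j, (h j).natDegree = 0 := by
    intro j
    fin_cases j
    · exact hkey.1
    · exact hkey.2.1
    · exact hkey.2.2
    · exact hdeg3
  apply he0
  have h1 := hΦ (gen j0) (vv p j0) i0
  rw [hlam'] at h1
  have h2 : vv p j0 + (e0 - vv p j0) = e0 := by ring
  rw [h2] at h1
  rw [← h1]
  apply Polynomial.coeff_eq_zero_of_natDegree_lt
  have h3 := hall j0
  rw [hh] at h3
  dsimp only at h3
  rw [h3]
  exact Nat.pos_of_ne_zero hi0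

end Degen

end Pool.Agent.H12.Plinth
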