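import Pool.Agent.H12.Plinth.Invariants

set_option autoImplicit false

namespace Pool.Agent.H12.Plinth

open AddMonoidAlgebra

section Alg

variable (k : Type*) [Field k] (p : ℕ) [hp : Fact p.Prime] [CharP k p]

/-- the algebraically independent triple `x, f, N`. -/
noncomputable def tri : Fin 3 → B3 k := ![xx k, ff k p, NN k p]

omit [CharP k p] in
lemma alg_all (b : B3 k) : IsAlgebraic (Algebra.adjoin k (Set.range (tri k p))) b := by
  have hx : xx k ∈ Algebra.adjoin k (Set.range (tri k p)) := Algebra.subset_adjoin ⟨0, rfl⟩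
  have hf : ff k p ∈ Algebra.adjoin k (Set.range (tri k p)) := Algebra.subset_adjoin ⟨1, rfl⟩
  have hN : NN k p ∈ Algebra.adjoin k (Set.range (tri k p)) := Algebra.subset_adjoin ⟨2, rfl⟩
  have hw : ww k p ∈ Algebra.adjoin k (Set.range (tri k p)) := pow_mem hx _
  have hs : IsIntegral (Algebra.adjoin k (Set.range (tri k p))) (ss k p) := by
    refine ⟨Polynomial.X ^ p + (Polynomial.C (-⟨ww k p, hw⟩) * Polynomial.X +
      Polynomial.C (-⟨NN k p, hN⟩)), ?_, ?_⟩
    · apply Polynomial.monic_X_pow_add
      refine lt_of_le_of_lt Polynomial.degree_linear_le ?_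
      exact_mod_cast hp.out.one_lt
    · rw [← Polynomial.aeval_def, map_add, map_add, map_mul, Polynomial.aeval_X_pow,
        Polynomial.aeval_X, Polynomial.aeval_C, Polynomial.aeval_C]
      change ss k p ^ p + (- ww k p * ss k p + - NN k p) = 0
      rw [NN]
      ring
  have hu : IsIntegral (Algebra.adjoin k (Set.range (tri k p))) (uu k) := by
    have h1 : uu k = ff k p - ss k p ^ (p + 1) := by rw [ff]; ring
    rw [h1]
    refine IsIntegral.sub ?_ (hs.pow _)
    exact isIntegral_algebraMap (x := (⟨ff k p, hf⟩ : Algebra.adjoin k (Set.range (tri k p))))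
  have hy : IsAlgebraic (Algebra.adjoin k (Set.range (tri k p))) (yy k) := by
    refine IsAlgebraic.of_smul_isIntegral
      (y := (⟨xx k, hx⟩ : Algebra.adjoin k (Set.range (tri k p)))) ?_ ?_
    · intro h
      have h1 := (isNilpotent_iff_eq_zero.mp h)
      exact xx_ne k (congrArg Subtype.val h1)
    · have h1 : (⟨xx k, hx⟩ : Algebra.adjoin k (Set.range (tri k p))) • yy k =
          uu k ^ p - ss k p := by
        change xx k * yy k = _
        rw [ss]; ring
      rw [h1]
      exact (hu.pow _).sub hs
  induction b using MvPolynomial.induction_on with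
  | C c =>
    exact isAlgebraic_algebraMap (algebraMap k (Algebra.adjoin k (Set.range (tri k p))) c)
  | add a b ha hb => exact ha.add hb
  | mul_X a i ha =>
    refine ha.mul ?_
    fin_cases i
    · exact isAlgebraic_algebraMap (⟨xx k, hx⟩ : Algebra.adjoin k (Set.range (tri k p)))
    · exact hu.isAlgebraic
    · exact hy

omit [CharP k p] in
lemma algIndep : AlgebraicIndependent k (tri k p) := by
  have : Algebra.IsAlgebraic (Algebra.adjoin k (Set.range (tri k p))) (B3 k) :=
    ⟨alg_all k p⟩
  have h := Algebra.IsAlgebraic.isTranscendenceBasis_of_lift_le_trdeg_of_finite k (tri k p) (by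
    rw [MvPolynomial.trdeg_of_isDomain]
    simp)
  exact h.1

/-- The Laurent-type ring with rational exponents. -/
abbrev LL (k : Type*) [Field k] := AddMonoidAlgebra (MvPolynomial (Fin 2) k) ℚ

/-- The four generators of the graph. -/
noncomputable def g4 : Fin 4 → B3 k × LL k := fun j => (gen4 k p j, single (vv p j) (lc k p j))

/-- The graph algebra. -/
noncomputable def GG : Subalgebra k (B3 k × LL k) := Algebra.adjoin k (Set.range (g4 k p))

/-- The images of `x, z, t`. -/
noncomputable def triL : Fin 3 → LL k :=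
  ![single 1 1, single 0 (MvPolynomial.X 0), single 0 (MvPolynomial.X 1)]

/-- Elements of the graph with cleared denominators. -/
def Clear (b : B3 k × LL k) : Prop :=
  ∃ (M : ℕ) (P : MvPolynomial (Fin 3) k), xx k ^ M * b.1 = MvPolynomial.aeval (tri k p) P ∧
    (single 1 1 : LL k) ^ M * b.2 = MvPolynomial.aeval (triL k) P

lemma clear_all (b : B3 k × LL k) (hb : b ∈ GG k p) : Clear k p b := by
  induction hb using Algebra.adjoin_induction with
  | mem b hb =>
    obtain ⟨j, rfl⟩ := hb
    fin_cases j
    · refine ⟨0, MvPolynomial.X 0, ?_, ?_⟩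
      · rw [MvPolynomial.aeval_X, pow_zero, one_mul]; rfl
      · rw [MvPolynomial.aeval_X, pow_zero, one_mul]; rfl
    · refine ⟨0, MvPolynomial.X 1, ?_, ?_⟩
      · rw [MvPolynomial.aeval_X, pow_zero, one_mul]; rfl
      · rw [MvPolynomial.aeval_X, pow_zero, one_mul]; rfl
    · refine ⟨0, MvPolynomial.X 2, ?_, ?_⟩
      · rw [MvPolynomial.aeval_X, pow_zero, one_mul]; rfl
      · rw [MvPolynomial.aeval_X, pow_zero, one_mul]; rfl
    · refine ⟨p, Gf p (MvPolynomial.X 1) (MvPolynomial.X 2), ?_, ?_⟩
      · have h1 := map_Gf (T := B3 k) (MvPolynomial.aeval (R := k) (tri k p)).toRingHom p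
          (MvPolynomial.X 1) (MvPolynomial.X 2)
        simp only [AlgHom.toRingHom_eq_coe, RingHom.coe_coe, MvPolynomial.aeval_X] at h1
        rw [h1]
        exact xp_y1 k p
      · have h1 := map_Gf (T := LL k) (MvPolynomial.aeval (R := k) (triL k)).toRingHom p
          (MvPolynomial.X 1) (MvPolynomial.X 2)
        simp only [AlgHom.toRingHom_eq_coe, RingHom.coe_coe, MvPolynomial.aeval_X] at h1
        rw [h1]
        change (single 1 1 : LL k) ^ p * (single (-(p : ℚ))
          (Gf p (MvPolynomial.X 0) (MvPolynomial.X 1)) : LL k) =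
            Gf p (single 0 (MvPolynomial.X 0) : LL k) (single 0 (MvPolynomial.X 1) : LL k)
        rw [← single_Gf, single_pow, single_mul_single, one_pow, one_mul]
        congr 1
        simp
  | algebraMap c =>
    refine ⟨0, MvPolynomial.C c, ?_, ?_⟩
    · rw [MvPolynomial.aeval_C, pow_zero, one_mul]; rfl
    · rw [MvPolynomial.aeval_C, pow_zero, one_mul]; rfl
  | add a b _ _ ha hb =>
    obtain ⟨M, P, h1, h2⟩ := ha
    obtain ⟨M', P', h1', h2'⟩ := hb
    have e1 : MvPolynomial.aeval (tri k p) (MvPolynomial.X 0 : MvPolynomial (Fin 3) k) = xx k := by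
      rw [MvPolynomial.aeval_X]; rfl
    have e2 : MvPolynomial.aeval (triL k) (MvPolynomial.X 0 : MvPolynomial (Fin 3) k) =
        (single 1 1 : LL k) := by
      rw [MvPolynomial.aeval_X]; rfl
    refine ⟨M + M', MvPolynomial.X 0 ^ M' * P + MvPolynomial.X 0 ^ M * P', ?_, ?_⟩
    · rw [map_add, map_mul, map_mul, map_pow, map_pow, e1, ← h1, ← h1', Prod.fst_add]
      ring
    · rw [map_add, map_mul, map_mul, map_pow, map_pow, e2, ← h2, ← h2', Prod.snd_add]
      ring
  | mul a b _ _ ha hb =>
    obtain ⟨M, P, h1, h2⟩ := ha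
    obtain ⟨M', P', h1', h2'⟩ := hb
    refine ⟨M + M', P * P', ?_, ?_⟩
    · rw [map_mul, ← h1, ← h1', Prod.fst_mul]
      ring
    · rw [map_mul, ← h2, ← h2', Prod.snd_mul]
      ring

/-- The embedding `k[z,t][x] → k[z,t][x^ℚ]`. -/
noncomputable def polyL : Polynomial (MvPolynomial (Fin 2) k) →ₐ[k] LL k :=
  Polynomial.eval₂AlgHom (AddMonoidAlgebra.singleZeroAlgHom (R := k)
    (A := MvPolynomial (Fin 2) k) (M := ℚ)) (single 1 1)
    (fun _ => Commute.all (S := LL k) _ _)

lemma coeff_polyL (Q : Polynomial (MvPolynomial (Fin 2) k)) (n : ℕ) :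
    (polyL k Q).coeff (n : ℚ) = Q.coeff n := by
  induction Q using Polynomial.induction_on' with
  | add P Q hP hQ =>
    rw [map_add, coeff_add, Finsupp.add_apply, hP, hQ, Polynomial.coeff_add]
  | monomial m a =>
    have h1 : polyL k (Polynomial.monomial m a) = single (m : ℚ) a := by
      change Polynomial.eval₂ _ _ _ = _
      rw [Polynomial.eval₂_monomial, single_pow]
      change single 0 a * _ = _
      rw [single_mul_single]
      simp
    rw [h1, coeff_single, Polynomial.coeff_monomial]
    by_cases h : m = n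
    · subst h; simp
    · rw [if_neg h, Finsupp.single_eq_of_ne]
      intro h2
      exact h (by exact_mod_cast h2.symm)

lemma aevalL_injective : Function.Injective (MvPolynomial.aeval (R := k) (triL k)) := by
  have h : (MvPolynomial.aeval (R := k) (triL k)) =
      (polyL k).comp (MvPolynomial.finSuccEquiv k 2 : _ →ₐ[k] _) := by
    apply MvPolynomial.algHom_ext
    intro i
    rw [MvPolynomial.aeval_X, AlgHom.comp_apply]
    fin_cases i
    · change (single 1 1 : LL k) = polyL k (MvPolynomial.finSuccEquiv k 2 (MvPolynomial.X 0))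
      rw [MvPolynomial.finSuccEquiv_X_zero]
      change _ = Polynomial.eval₂ _ _ _
      rw [Polynomial.eval₂_X]
    · change (single 0 (MvPolynomial.X 0) : LL k) =
        polyL k (MvPolynomial.finSuccEquiv k 2 (MvPolynomial.X (Fin.succ 0)))
      rw [MvPolynomial.finSuccEquiv_X_succ]
      change _ = Polynomial.eval₂ _ _ _
      rw [Polynomial.eval₂_C]
      rfl
    · change (single 0 (MvPolynomial.X 1) : LL k) =
        polyL k (MvPolynomial.finSuccEquiv k 2 (MvPolynomial.X (Fin.succ 1)))
      rw [MvPolynomial.finSuccEquiv_X_succ]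
      change _ = Polynomial.eval₂ _ _ _
      rw [Polynomial.eval₂_C]
      rfl
  have hinj : Function.Injective (polyL k) := by
    intro P Q hPQ
    apply Polynomial.ext
    intro n
    rw [← coeff_polyL, ← coeff_polyL, hPQ]
  intro P Q hPQ
  rw [h] at hPQ
  exact (MvPolynomial.finSuccEquiv k 2).injective (hinj hPQ)

/-- First projection on the graph. -/
noncomputable def pr1 : GG k p →ₐ[k] B3 k := (AlgHom.fst k (B3 k) (LL k)).comp (GG k p).val

/-- Second projection on the graph. -/
noncomputable def pr2 : GG k p →ₐ[k] LL k := (AlgHom.snd k (B3 k) (LL k)).comp (GG k p).val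

omit [CharP k p] in
lemma single_pow_cancel (M : ℕ) (l : LL k) (h : (single 1 1 : LL k) ^ M * l = 0) : l = 0 := by
  have h1 : (single (-(M : ℚ)) 1 : LL k) * ((single 1 1 : LL k) ^ M * l) = l := by
    rw [← mul_assoc, single_pow, single_mul_single, one_pow, one_mul, nsmul_eq_mul, mul_one,
      neg_add_cancel, ← one_def, one_mul]
  rw [← h1, h, mul_zero]

lemma pr1_injective : Function.Injective (pr1 k p) := by
  rw [injective_iff_map_eq_zero]
  rintro ⟨⟨b, l⟩, hb⟩ h0
  have hb0 : b = 0 := h0
  obtain ⟨M, P, h1, h2⟩ := clear_all k p _ hb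
  subst hb0
  have hP : P = 0 := by
    apply algIndep k p
    rw [← h1, mul_zero, map_zero]
  rw [hP, map_zero] at h2
  have hl : l = 0 := single_pow_cancel k M l h2
  subst hl
  rfl

lemma pr2_injective : Function.Injective (pr2 k p) := by
  rw [injective_iff_map_eq_zero]
  rintro ⟨⟨b, l⟩, hb⟩ h0
  have hl0 : l = 0 := h0
  obtain ⟨M, P, h1, h2⟩ := clear_all k p _ hb
  subst hl0
  have hP : P = 0 := by
    apply aevalL_injective k
    rw [← h2, mul_zero, map_zero]
  rw [hP, map_zero] at h1
  have hb0 : b = 0 := by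
    rcases mul_eq_zero.mp h1 with h3 | h3
    · exact absurd h3 (pow_ne_zero _ (xx_ne k))
    · exact h3
  subst hb0
  rfl

/-- The generators of the graph as elements of it. -/
noncomputable def ggen : Fin 4 → GG k p := fun j => ⟨g4 k p j, Algebra.subset_adjoin ⟨j, rfl⟩⟩

lemma gens_GG : Gens p (pr2 k p) (ggen k p) := by
  refine ⟨fun j => rfl, ?_⟩
  have h1 := Algebra.adjoin_adjoin_coe_preimage (R := k) (s := Set.range (g4 k p))
  have h2 : Set.range (ggen k p) =
      ((↑) : Algebra.adjoin k (Set.range (g4 k p)) → B3 k × LL k) ⁻¹' Set.range (g4 k p) := by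
    ext ⟨b, hb⟩
    constructor
    · rintro ⟨j, hj⟩
      exact ⟨j, congrArg Subtype.val hj⟩
    · rintro ⟨j, hj⟩
      exact ⟨j, Subtype.ext hj⟩
  rw [h2]
  exact h1

omit hp [CharP k p] in
lemma range_pr1 : (pr1 k p).range = R1 k p := by
  have h1 : (pr1 k p).range = (GG k p).map (AlgHom.fst k (B3 k) (LL k)) := by
    rw [pr1, AlgHom.range_comp, Subalgebra.range_val]
  rw [h1, GG, ← Algebra.adjoin_image, R1]
  congr 1
  rw [← Set.range_comp]
  rfl

/-- The ring generated by the four invariants is not a polynomial ring. -/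
theorem R1_not_poly : IsEmpty (R1 k p ≃ₐ[k] MvPolynomial (Fin 3) k) := by
  refine ⟨fun e => ?_⟩
  have e1 : GG k p ≃ₐ[k] (pr1 k p).range := AlgEquiv.ofInjective _ (pr1_injective k p)
  have e2 : (pr1 k p).range ≃ₐ[k] R1 k p := Subalgebra.equivOfEq _ _ (range_pr1 k p)
  exact (not_poly (pr2_injective k p) (gens_GG k p)).false ((e1.trans e2).trans e)

end Alg

end Pool.Agent.H12.Plinth
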