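import Pool.Agent.H12.Plinth.Degen2

set_option autoImplicit false

namespace Pool.Agent.H12.Plinth

open AddMonoidAlgebra

lemma Gf_ne_zero (k : Type*) [Field k] (p : ℕ) :
    Gf p (MvPolynomial.X 0) (MvPolynomial.X 1 : MvPolynomial (Fin 2) k) ≠ 0 := by
  intro h
  have h1 := congrArg (MvPolynomial.eval (![1, 0] : Fin 2 → k)) h
  rw [map_Gf, MvPolynomial.eval_X, MvPolynomial.eval_X, map_zero] at h1
  simp [Gf] at h1

section

variable {k : Type*} [Field k] {p : ℕ}
variable {R : Type*} [CommRing R] [Algebra k R]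
variable {ι : R →ₐ[k] AddMonoidAlgebra (MvPolynomial (Fin 2) k) ℚ} {gen : Fin 4 → R}

/-- the substitution `X_j ↦ X_j + U`. -/
noncomputable def shift (k : Type*) [Field k] (j : Fin 3) :
    MvPolynomial (Fin 3) k →ₐ[k] Polynomial (MvPolynomial (Fin 3) k) :=
  MvPolynomial.aeval fun l => Polynomial.C (MvPolynomial.X l) + if l = j then Polynomial.X else 0

lemma shift_coeff_zero (j : Fin 3) (P : MvPolynomial (Fin 3) k) : (shift k j P).coeff 0 = P := by
  induction P using MvPolynomial.induction_on with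
  | C c =>
    rw [shift, MvPolynomial.aeval_C]
    rw [show algebraMap k (Polynomial (MvPolynomial (Fin 3) k)) c =
      Polynomial.C (MvPolynomial.C c) from rfl, Polynomial.coeff_C_zero]
  | add a b ha hb => rw [map_add, Polynomial.coeff_add, ha, hb]
  | mul_X a i ha =>
    rw [map_mul, Polynomial.mul_coeff_zero, ha, shift, MvPolynomial.aeval_X]
    congr 1
    rw [Polynomial.coeff_add, Polynomial.coeff_C_zero]
    split_ifs <;> simp

theorem not_poly [hp : Fact p.Prime] [CharP k p] (hι : Function.Injective ι)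
    (H : Gens p ι gen) : IsEmpty (R ≃ₐ[k] MvPolynomial (Fin 3) k) := by
  refine ⟨fun e => ?_⟩
  have hgenX : ∀ i : Fin 3, ∀ q < 0, (ι (e.symm (MvPolynomial.X i))).coeff q = 0 := by
    intro i
    obtain ⟨j, hj⟩ : ∃ j : Fin 3, i ≠ j := by
      refine ⟨i + 1, ?_⟩
      fin_cases i <;> decide
    let ψ : R →ₐ[k] Polynomial R :=
      (Polynomial.mapAlgHom (e.symm : MvPolynomial (Fin 3) k →ₐ[k] R)).comp
        ((shift k j).comp (e : R →ₐ[k] MvPolynomial (Fin 3) k))
    have hψc : ∀ r n, (ψ r).coeff n = e.symm ((shift k j (e r)).coeff n) := by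
      intro r n
      change (Polynomial.map (e.symm : MvPolynomial (Fin 3) k →ₐ[k] R).toRingHom
        (shift k j (e r))).coeff n = _
      rw [Polynomial.coeff_map]
      rfl
    refine degen hι H ψ ?_ ?_ _ ?_
    · intro r
      rw [hψc, shift_coeff_zero, AlgEquiv.symm_apply_apply]
    · refine ⟨e.symm (MvPolynomial.X j), fun h => ?_⟩
      have h1 := congrArg (fun P => Polynomial.coeff P 1) h
      rw [hψc, AlgEquiv.apply_symm_apply, shift, MvPolynomial.aeval_X, if_pos rfl,
        Polynomial.coeff_add, Polynomial.coeff_C_succ, Polynomial.coeff_X_one, zero_add, map_one,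
        Polynomial.coeff_C_succ] at h1
      have h2 : (1 : MvPolynomial (Fin 3) k) = 0 := by
        have := congrArg e h1
        rwa [map_one, map_zero] at this
      exact one_ne_zero h2
    · ext n
      rw [hψc, AlgEquiv.apply_symm_apply, shift, MvPolynomial.aeval_X, if_neg hj, add_zero,
        Polynomial.coeff_C, Polynomial.coeff_C]
      split_ifs
      · rfl
      · rw [map_zero]
  have hall : ∀ P : MvPolynomial (Fin 3) k, ∃ f, Rel 0 (ι (e.symm P)) f := by
    intro P
    induction P using MvPolynomial.induction_on with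
    | C c =>
      rw [show (MvPolynomial.C c : MvPolynomial (Fin 3) k) = algebraMap k _ c from rfl,
        AlgEquiv.commutes, AlgHom.commutes]
      exact ⟨_, Rel.single 0 _⟩
    | add a b ha hb =>
      obtain ⟨f, hf⟩ := ha
      obtain ⟨g, hg⟩ := hb
      exact ⟨f + g, by rw [map_add, map_add]; exact hf.add hg⟩
    | mul_X a i ha =>
      obtain ⟨f, hf⟩ := ha
      exact ⟨_, by rw [map_mul, map_mul]; exact hf.mul_zero' ⟨hgenX i, rfl⟩⟩
  obtain ⟨f, hf⟩ := hall (e (gen 3))
  rw [AlgEquiv.symm_apply_apply, H.img] at hf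
  have h1 := hf.1 (-(p : ℚ)) (by
    have : (0 : ℚ) < p := by exact_mod_cast hp.out.pos
    linarith)
  rw [show vv p 3 = -(p : ℚ) from rfl, coeff_single, Finsupp.single_eq_same] at h1
  exact Gf_ne_zero k p h1

end

end Pool.Agent.H12.Plinth
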