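import Pool.Agent.H12.Plinth.Action
import Pool.Agent.H12.Plinth.NotPoly

set_option autoImplicit false

namespace Pool.Agent.H12.Plinth

open Polynomial

section Inv

variable (k : Type*) [Field k] (p : ℕ)

/-- The four generators of the invariant ring. -/
noncomputable def gen4 : Fin 4 → B3 k := ![xx k, ff k p, NN k p, y1 k p]

/-- The subalgebra generated by the four generators. -/
noncomputable def R1 : Subalgebra k (B3 k) := Algebra.adjoin k (Set.range (gen4 k p))

lemma x_mem : xx k ∈ R1 k p := Algebra.subset_adjoin ⟨0, rfl⟩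
lemma f_mem : ff k p ∈ R1 k p := Algebra.subset_adjoin ⟨1, rfl⟩
lemma N_mem : NN k p ∈ R1 k p := Algebra.subset_adjoin ⟨2, rfl⟩
lemma y1_mem : y1 k p ∈ R1 k p := Algebra.subset_adjoin ⟨3, rfl⟩
lemma r_mem : rr k p ∈ R1 k p :=
  sub_mem (pow_mem (f_mem k p) _) (pow_mem (N_mem k p) _)

/-- The subalgebra `R1[h]`. -/
noncomputable def R1h : Subalgebra k (B3 k) :=
  ((Polynomial.aeval (R := R1 k p) (hh k p)).restrictScalars k).range

lemma R1_le : ∀ b ∈ R1 k p, b ∈ R1h k p := by
  intro b hb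
  refine ⟨C ⟨b, hb⟩, ?_⟩
  change Polynomial.aeval (hh k p) (C (⟨b, hb⟩ : R1 k p)) = b
  rw [aeval_C]
  rfl

lemma h_mem : hh k p ∈ R1h k p := by
  refine ⟨X, ?_⟩
  change Polynomial.aeval (hh k p) (X : (R1 k p)[X]) = _
  rw [aeval_X]

variable [hp : Fact p.Prime] [CharP k p]

lemma s_mem : ss k p ∈ R1h k p := by
  have h1 : ss k p = rr k p + xx k * hh k p := by rw [xh]; ring
  rw [h1]
  exact add_mem (R1_le k p _ (r_mem k p)) (mul_mem (R1_le k p _ (x_mem k p)) (h_mem k p))

lemma u_mem : uu k ∈ R1h k p := by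
  have h1 : uu k = ff k p - ss k p ^ (p + 1) := by rw [ff]; ring
  rw [h1]
  exact sub_mem (R1_le k p _ (f_mem k p)) (pow_mem (s_mem k p) _)

lemma y_mem : yy k ∈ R1h k p := by
  have hx : xx k ∈ R1h k p := R1_le k p _ (x_mem k p)
  have hw : ww k p ∈ R1h k p := pow_mem hx _
  have ha : aa k p ∈ R1h k p := pow_mem hx _
  have h1 : yy k = - hh k p - aa k p * (ss k p ^ (p * p + 1) + ww k p ^ (p - 1) * ss k p ^ (2 * p)
    - ww k p ^ p * ss k p ^ (p + 1)) := by rw [hh]; ring
  rw [h1]
  refine sub_mem (neg_mem (h_mem k p)) (mul_mem ha (sub_mem (add_mem (pow_mem (s_mem k p) _)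
    (mul_mem (pow_mem hw _) (pow_mem (s_mem k p) _))) (mul_mem (pow_mem hw _)
      (pow_mem (s_mem k p) _))))

lemma all_mem (b : B3 k) : b ∈ R1h k p := by
  induction b using MvPolynomial.induction_on with
  | C c => exact (R1h k p).algebraMap_mem c
  | add a b ha hb => exact add_mem ha hb
  | mul_X a i ha =>
    refine mul_mem ha ?_
    fin_cases i
    · exact R1_le k p _ (x_mem k p)
    · exact u_mem k p
    · exact y_mem k p

/-- The monic equation of `h` over `R1`. -/
noncomputable def MM : (R1 k p)[X] :=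
  X ^ p + (C (-⟨xx k, x_mem k p⟩ ^ (2 * p - 2)) * X +
    C (⟨y1 k p, y1_mem k p⟩ - ⟨xx k, x_mem k p⟩ ^ (2 * p - 3) * ⟨rr k p, r_mem k p⟩))

omit [CharP k p] in
lemma MM_monic : (MM k p).Monic := by
  apply monic_X_pow_add
  refine lt_of_le_of_lt degree_linear_le ?_
  exact_mod_cast hp.out.one_lt

omit [CharP k p] in
lemma MM_natDegree : (MM k p).natDegree = p := by
  rw [MM]
  apply natDegree_eq_of_degree_eq_some
  rw [degree_add_eq_left_of_degree_lt, degree_X_pow]
  rw [degree_X_pow]
  refine lt_of_le_of_lt degree_linear_le ?_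
  exact_mod_cast hp.out.one_lt

lemma MM_aeval : Polynomial.aeval (hh k p) (MM k p) = 0 := by
  have hx := xh k p
  have h1 : xx k ^ (2 * p - 2) = xx k ^ (2 * p - 3) * xx k := by
    rw [← pow_succ]
    congr 1
    have := hp.out.two_le
    omega
  rw [MM, map_add, map_add, map_mul, aeval_X_pow, aeval_X, aeval_C, aeval_C]
  change hh k p ^ p + (-(xx k) ^ (2 * p - 2) * hh k p +
    (y1 k p - xx k ^ (2 * p - 3) * rr k p)) = 0
  rw [y1]
  linear_combination (-(hh k p)) * h1 - xx k ^ (2 * p - 3) * hx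

lemma Phi_R1 (r : R1 k p) : Phi k p (r : B3 k) = r := by
  have h : R1 k p ≤ AlgHom.equalizer ((Phi k p : B3 k ≃ₐ[k] B3 k) : B3 k →ₐ[k] B3 k)
      (AlgHom.id k (B3 k)) := by
    apply Algebra.adjoin_le
    rintro _ ⟨j, rfl⟩
    fin_cases j
    · exact Phi_x k p
    · exact Phi_f k p
    · exact Phi_N k p
    · exact Phi_y1 k p
  exact h r.2

/-- The invariants of `φ` are exactly `R1`. -/
lemma mem_R1_iff (b : B3 k) : b ∈ R1 k p ↔ Phi k p b = b := by
  refine ⟨fun hb => Phi_R1 k p ⟨b, hb⟩, fun hb => ?_⟩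
  obtain ⟨Q, hQ⟩ := all_mem k p b
  change Polynomial.aeval (hh k p) Q = b at hQ
  set P := Q %ₘ MM k p with hP
  have hPb : Polynomial.aeval (hh k p) P = b := by
    rw [hP, ← hQ]
    have h1 := congrArg (Polynomial.aeval (hh k p)) (modByMonic_add_div Q (MM k p))
    rw [map_add, map_mul, MM_aeval, zero_mul, add_zero] at h1
    exact h1
  have hPdeg : P.natDegree < p := by
    have h1 := natDegree_modByMonic_lt Q (MM_monic k p) (by
      intro h
      have h2 := MM_natDegree k p
      rw [h, natDegree_one] at h2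
      exact hp.out.ne_zero h2.symm)
    rwa [MM_natDegree] at h1
  set P' : (B3 k)[X] := P.map (algebraMap (R1 k p) (B3 k)) - C b with hP'
  have hfix : ∀ c : B3 k, Phi k p (P'.eval c) = P'.eval (Phi k p c) := by
    intro c
    rw [hP', eval_sub, eval_sub, eval_C, eval_C, map_sub, hb, eval_map, eval_map]
    congr 1
    rw [eval₂_eq_sum, eval₂_eq_sum, Polynomial.sum, Polynomial.sum, map_sum]
    refine Finset.sum_congr rfl fun i _ => ?_
    rw [map_mul, map_pow]
    congr 1
    exact Phi_R1 k p _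
  have hroot : ∀ j : ℕ, P'.eval (hh k p + j * xx k ^ 2) = 0 := by
    intro j
    induction j with
    | zero =>
      rw [Nat.cast_zero, zero_mul, add_zero, hP', eval_sub, eval_C, eval_map, ← aeval_def, hPb,
        sub_self]
    | succ j ih =>
      have h1 := congrArg (Phi k p) ih
      rw [hfix, map_add, map_mul, map_natCast, map_pow, Phi_x, Phi_h, map_zero] at h1
      rw [← h1]
      congr 1
      push_cast
      ring
  have hP'0 : P' = 0 := by
    apply eq_zero_of_natDegree_lt_card_of_eval_eq_zero P' (ι := Fin p)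
      (f := fun j => hh k p + (j : ℕ) * xx k ^ 2)
    · intro i j hij
      have h1 : ((i : ℕ) : B3 k) = ((j : ℕ) : B3 k) := by
        have h2 : ((i : ℕ) : B3 k) * xx k ^ 2 = ((j : ℕ) : B3 k) * xx k ^ 2 := by
          simpa using hij
        exact mul_right_cancel₀ (pow_ne_zero _ (xx_ne k)) h2
      have h3 := CharP.natCast_injOn_Iio (B3 k) p (Set.mem_Iio.mpr i.2) (Set.mem_Iio.mpr j.2) h1
      exact Fin.ext h3
    · intro i
      exact hroot i
    · rw [Fintype.card_fin, hP']
      refine lt_of_le_of_lt (natDegree_sub_le _ _) ?_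
      rw [natDegree_C]
      exact max_lt (lt_of_le_of_lt natDegree_map_le hPdeg) hp.out.pos
  have h1 : b = ((P.coeff 0 : R1 k p) : B3 k) := by
    have h2 := congrArg (fun T => Polynomial.coeff T 0) hP'0
    rw [hP', coeff_sub, coeff_C_zero, coeff_map, coeff_zero, sub_eq_zero] at h2
    exact h2.symm
  rw [h1]
  exact (P.coeff 0).2

end Inv

end Pool.Agent.H12.Plinth
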