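import Mathlib

set_option autoImplicit false

namespace Pool.Agent.H12.Plinth

open Polynomial

section Key

variable {A : Type*} [CommRing A]

/-- The coefficientwise extension of a derivation to polynomials. -/
noncomputable def coeffDer (d : Derivation ℤ A A) : Derivation ℤ A[X] A[X] :=
  PolynomialModule.equivPolynomialSelf.compDer d.mapCoeffs

lemma coeff_coeffDer (d : Derivation ℤ A A) (P : A[X]) (i : ℕ) :
    (coeffDer d P).coeff i = d (P.coeff i) := rfl

lemma coeffDer_C (d : Derivation ℤ A A) (a : A) : coeffDer d (C a) = C (d a) := by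
  ext i
  rw [coeff_coeffDer, coeff_C, coeff_C]
  split_ifs <;> simp

lemma coeffDer_mul (d : Derivation ℤ A A) (a b : A[X]) :
    coeffDer d (a * b) = a * coeffDer d b + b * coeffDer d a := by
  rw [Derivation.leibniz, smul_eq_mul, smul_eq_mul]

lemma coeffDer_pow (d : Derivation ℤ A A) (a : A[X]) (n : ℕ) :
    coeffDer d (a ^ n) = (n : A[X]) * (a ^ (n - 1) * coeffDer d a) := by
  rw [Derivation.leibniz_pow, smul_eq_mul, nsmul_eq_mul]

lemma natDegree_coeffDer_le (d : Derivation ℤ A A) (P : A[X]) :
    (coeffDer d P).natDegree ≤ P.natDegree := by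
  rw [natDegree_le_iff_coeff_eq_zero]
  intro N hN
  rw [coeff_coeffDer, coeff_eq_zero_of_natDegree_lt hN, map_zero]

theorem key [IsDomain A] (p : ℕ) [hp : Fact p.Prime] [CharP A p]
    (d : Derivation ℤ A A) (z t : A) (ht : d t = 1) (X Z T : A[X])
    (h : X ^ p * C ((z ^ p - t ^ (p + 1)) ^ p - t) = (Z ^ p - T ^ (p + 1)) ^ p - T)
    (hX : X ≠ 0) (hT : T ≠ 0) :
    X.natDegree = 0 ∧ Z.natDegree = 0 ∧ T.natDegree = 0 := by
  have hp2 : 2 ≤ p := hp.out.two_le
  set G : A := (z ^ p - t ^ (p + 1)) ^ p - t with hG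
  set E : A[X] := Z ^ p - T ^ (p + 1) with hE
  have hdG : d G = -1 := by
    rw [hG, map_sub, Derivation.leibniz_pow, ht, ← Nat.cast_smul_eq_nsmul A, CharP.cast_eq_zero,
      zero_smul, zero_sub]
  have hDT : coeffDer d T = X ^ p := by
    have h1 := congrArg (coeffDer d) h
    rw [(coeffDer d).map_sub (E ^ p) T, coeffDer_mul, coeffDer_pow, coeffDer_pow, coeffDer_C, hdG,
      CharP.cast_eq_zero] at h1
    rw [C_neg, C_1] at h1
    linear_combination h1
  have hDE : coeffDer d E = - (T ^ p * X ^ p) := by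
    rw [hE, map_sub, coeffDer_pow, coeffDer_pow, hDT, Nat.add_sub_cancel]
    push_cast
    rw [CharP.cast_eq_zero]
    ring
  have hEp : E ^ p = X ^ p * C G + T := by rw [h]; ring
  have dX : p * X.natDegree ≤ T.natDegree := by
    have := natDegree_coeffDer_le d T
    rw [hDT, natDegree_pow] at this
    exact this
  have dE : p * E.natDegree ≤ T.natDegree := by
    have h1 : (E ^ p).natDegree ≤ T.natDegree := by
      rw [hEp]
      refine (natDegree_add_le _ _).trans (max_le ?_ le_rfl)
      refine (natDegree_mul_le).trans ?_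
      rw [natDegree_C, add_zero, natDegree_pow]
      exact dX
    rwa [natDegree_pow] at h1
  have dT : p * T.natDegree + p * X.natDegree ≤ E.natDegree := by
    have h1 := natDegree_coeffDer_le d E
    rw [hDE, natDegree_neg, natDegree_mul (pow_ne_zero _ hT) (pow_ne_zero _ hX),
      natDegree_pow, natDegree_pow] at h1
    exact h1
  have hT0 : T.natDegree = 0 := by
    by_contra hne
    have h1 : 0 < T.natDegree := Nat.pos_of_ne_zero hne
    have h2 : 2 * T.natDegree ≤ p * T.natDegree := Nat.mul_le_mul_right _ hp2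
    have h3 : 2 * E.natDegree ≤ p * E.natDegree := Nat.mul_le_mul_right _ hp2
    omega
  have hX0 : X.natDegree = 0 := by
    have h2 : 2 * X.natDegree ≤ p * X.natDegree := Nat.mul_le_mul_right _ hp2
    omega
  have hE0 : E.natDegree = 0 := by
    have h3 : 2 * E.natDegree ≤ p * E.natDegree := Nat.mul_le_mul_right _ hp2
    omega
  refine ⟨hX0, ?_, hT0⟩
  have h4 : (Z ^ p).natDegree ≤ 0 := by
    have : Z ^ p = E + T ^ (p + 1) := by rw [hE]; ring
    rw [this]
    refine (natDegree_add_le _ _).trans ?_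
    rw [hE0, natDegree_pow, hT0]
    simp
  rw [natDegree_pow] at h4
  have h5 : 2 * Z.natDegree ≤ p * Z.natDegree := Nat.mul_le_mul_right _ hp2
  omega

end Key

end Pool.Agent.H12.Plinth
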